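import Pool.Agent.Lib_MP_a50277_ins.Core

/-!
# Plane curves of degree `d` through exactly `d (d + 3) / 2` points which determine them

For every finite nonempty set `P` of points of the real projective plane and every `d` some curve of
degree `d` meets `P` in points which impose independent conditions on the curves of degree `d` and
which determine the curve up to the curves through all of `P`.  If no curve of degree `d` contains
`P` these are exactly `d (d + 3) / 2` points and they determine the curve (the conjecture of Wiseman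
and Wilson).
-/

set_option autoImplicit false

namespace Pool.Agent.Results.MP_a50277_co.RelativeForm

open MvPolynomial Module WW
open scoped LinearAlgebra.Projectivization

/-- The curve `f = 0` passes through the point `p`: `f` vanishes at all vectors of the line `p`
of `ℝ³`. -/
def Passes (f : MvPolynomial (Fin 3) ℝ) (p : ℙ ℝ (Fin 3 → ℝ)) : Prop :=
  ∀ v ∈ p.submodule, eval v f = 0

/-- The space of the homogeneous polynomials `f` of degree `d` in three variables such that the curve
`f = 0` passes through all points of `P`. -/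
def curves (d : ℕ) (P : Finset (ℙ ℝ (Fin 3 → ℝ))) : Submodule ℝ (MvPolynomial (Fin 3) ℝ) where
  carrier := {f | f.IsHomogeneous d ∧ ∀ p ∈ P, Passes f p}
  add_mem' := fun ha hb => ⟨ha.1.add hb.1, fun p hp v hv => by
    rw [map_add, ha.2 p hp v hv, hb.2 p hp v hv, add_zero]⟩
  zero_mem' := ⟨isHomogeneous_zero _ _ _, fun p _ v _ => map_zero _⟩
  smul_mem' := fun c f hf => ⟨(homogeneousSubmodule (Fin 3) ℝ d).smul_mem c hf.1, fun p hp v hv => by
    rw [smul_eval, hf.2 p hp v hv, mul_zero]⟩

private theorem mem_curves {d : ℕ} {P : Finset (ℙ ℝ (Fin 3 → ℝ))} {f : MvPolynomial (Fin 3) ℝ} :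
    f ∈ curves d P ↔ f.IsHomogeneous d ∧ ∀ p ∈ P, Passes f p := Iff.rfl

private theorem passes_iff {d : ℕ} {f : MvPolynomial (Fin 3) ℝ} (hf : f.IsHomogeneous d)
    (p : ℙ ℝ (Fin 3 → ℝ)) : Passes f p ↔ eval p.rep f = 0 := by
  constructor
  · intro h
    refine h p.rep ?_
    rw [Projectivization.submodule_eq]
    exact Submodule.mem_span_singleton_self _
  · intro h v hv
    rw [Projectivization.submodule_eq, Submodule.mem_span_singleton] at hv
    obtain ⟨c, rfl⟩ := hv
    rw [eval_smul_hom hf, h, mul_zero]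

/-- the relative form, for finite nonempty sets -/
private theorem rel (d : ℕ) (P : Finset (ℙ ℝ (Fin 3 → ℝ))) (hP : P.Nonempty) :
    ∃ (f : MvPolynomial (Fin 3) ℝ) (Q : Finset (ℙ ℝ (Fin 3 → ℝ))),
      f.IsHomogeneous d ∧ f ∉ curves d P ∧ (∀ p, p ∈ Q ↔ p ∈ P ∧ Passes f p) ∧
      curves d Q = curves d P ⊔ Submodule.span ℝ {f} ∧
      2 * (Q.card + finrank ℝ (curves d Q)) = (d + 1) * (d + 2) := by
  classical
  have hle : ∀ Q : Finset (ℙ ℝ (Fin 3 → ℝ)), curves d Q ≤ homogeneousSubmodule (Fin 3) ℝ d :=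
    fun Q f hf => hf.1
  obtain ⟨W, hWdef⟩ : ∃ W, W = (curves d P).submoduleOf (homogeneousSubmodule (Fin 3) ℝ d) :=
    ⟨_, rfl⟩
  have hNe : Nonempty P := hP.to_subtype
  have hmemW : ∀ x : homogeneousSubmodule (Fin 3) ℝ d, x ∈ W ↔ x.1 ∈ curves d P := by
    intro x
    rw [hWdef]
    exact Iff.rfl
  obtain ⟨f, hf1, hf2, hf3⟩ := relB claimB (fun p : P => ev d p.1.rep)
    (fun p => ev_ne_zero p.1.rep_nonzero) (relC_ev affineC d P) W (by
      intro x
      rw [hmemW, mem_curves]
      constructor
      · rintro ⟨-, h⟩ p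
        rw [ev_apply]
        exact (passes_iff x.2 p.1).1 (h p.1 p.2)
      · intro h
        refine ⟨x.2, fun p hp => (passes_iff x.2 p).2 ?_⟩
        have h1 := h ⟨p, hp⟩
        rwa [ev_apply] at h1)
  have hfP : f.1 ∉ curves d P := fun h => hf1 ((hmemW f).2 h)
  obtain ⟨Q, hQ⟩ : ∃ Q, Q = P.filter (fun p => eval p.rep f.1 = 0) := ⟨_, rfl⟩
  have hmemQ : ∀ p, p ∈ Q ↔ p ∈ P ∧ Passes f.1 p := by
    intro p
    rw [hQ, Finset.mem_filter, passes_iff f.2]
  have hcard : Q.card = Set.ncard {p : P | ev d p.1.rep f = 0} := by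
    rw [← Set.ncard_coe_finset]
    symm
    refine Set.ncard_congr (fun p _ => p.1) ?_ ?_ ?_
    · intro p hp
      have hp' : ev d p.1.rep f = 0 := hp
      rw [ev_apply] at hp'
      rw [hQ, Finset.mem_coe, Finset.mem_filter]
      exact ⟨p.2, hp'⟩
    · intro p q _ _ h
      exact Subtype.ext h
    · intro p hp
      rw [hQ, Finset.mem_coe, Finset.mem_filter] at hp
      refine ⟨⟨p, hp.1⟩, ?_, rfl⟩
      show ev d p.rep f = 0
      rw [ev_apply]
      exact hp.2
  have hsup : curves d Q = curves d P ⊔ Submodule.span ℝ {f.1} := by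
    apply le_antisymm
    · intro g hg
      obtain ⟨c, hc⟩ := hf3 ⟨g, hg.1⟩ (by
        intro p hp
        rw [ev_apply] at hp ⊢
        exact (passes_iff hg.1 p.1).1 (hg.2 p.1 ((hmemQ p.1).2 ⟨p.2, (passes_iff f.2 p.1).2 hp⟩)))
      have h1 : g - c • f.1 ∈ curves d P := (hmemW _).1 hc
      rw [Submodule.mem_sup]
      exact ⟨_, h1, c • f.1, Submodule.smul_mem _ _ (Submodule.mem_span_singleton_self _),
        sub_add_cancel _ _⟩
    · rw [sup_le_iff, Submodule.span_singleton_le_iff_mem]
      refine ⟨fun g hg => ⟨hg.1, fun p hp => hg.2 p ((hmemQ p).1 hp).1⟩, f.2, fun p hp => ?_⟩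
      exact ((hmemQ p).1 hp).2
  refine ⟨f.1, Q, f.2, hfP, hmemQ, hsup, ?_⟩
  have hWfin : finrank ℝ W = finrank ℝ (curves d P) := by
    rw [hWdef]
    exact (Submodule.submoduleOfEquivOfLe (hle P)).finrank_eq
  have hfd : ∀ Q' : Finset (ℙ ℝ (Fin 3 → ℝ)), FiniteDimensional ℝ (curves d Q') := fun Q' =>
    Submodule.finiteDimensional_of_le (hle Q')
  have hfin : finrank ℝ (curves d Q) = finrank ℝ (curves d P) + 1 := by
    have h1 := hfd P
    have h2 := Submodule.finrank_sup_add_finrank_inf_eq (curves d P) (Submodule.span ℝ {f.1})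
    have h3 : curves d P ⊓ Submodule.span ℝ {f.1} = ⊥ := by
      rw [eq_bot_iff]
      rintro g ⟨hg1, hg2⟩
      obtain ⟨c, rfl⟩ := Submodule.mem_span_singleton.1 hg2
      rcases eq_or_ne c 0 with rfl | hc
      · rw [zero_smul]
        exact Submodule.zero_mem _
      · exfalso
        apply hfP
        have h4 := (curves d P).smul_mem c⁻¹ hg1
        rwa [smul_smul, inv_mul_cancel₀ hc, one_smul] at h4
    have h5 : f.1 ≠ 0 := fun h => hfP (by rw [h]; exact Submodule.zero_mem _)
    rw [h3, finrank_bot, finrank_span_singleton h5, ← hsup] at h2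
    omega
  rw [← hcard, hWfin, finrank_hom] at hf2
  have h6 : 2 * ((d + 1) * (d + 2) / 2) = (d + 1) * (d + 2) :=
    Nat.mul_div_cancel' (by
      have := Nat.even_mul_succ_self (d + 1)
      exact this.two_dvd)
  rw [hfin]
  omega

/-- (1) For every degree `d` and every finite nonempty set `P` of points of the real projective plane
(contained in a curve of degree `d` or not) there is a homogeneous polynomial `f` of degree `d`, not
vanishing on all of `P`, such that the set `Q` of the points of `P` on the curve `f = 0` has these two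
properties.  The polynomials of degree `d` vanishing on `Q` are the sums of a multiple of `f` and a
polynomial vanishing on `P`, so `Q` determines the curve up to curves through `P`.  The dimension of
the space of these polynomials is `(d + 1) (d + 2) / 2 - |Q|`, so `Q` imposes `|Q|` independent
conditions.

(2) If no curve of degree `d` passes through all points of `P`, then there is a nonzero homogeneous
`f` of degree `d` such that exactly `d (d + 3) / 2` points of `P` are on the curve `f = 0` and they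
determine it: the homogeneous polynomials of degree `d` vanishing at these points are the multiples
of `f`. -/
theorem result :
    (∀ (d : ℕ) (P : Finset (ℙ ℝ (Fin 3 → ℝ))), P.Nonempty →
      ∃ (f : MvPolynomial (Fin 3) ℝ) (Q : Finset (ℙ ℝ (Fin 3 → ℝ))),
        f.IsHomogeneous d ∧ f ∉ curves d P ∧ (∀ p, p ∈ Q ↔ p ∈ P ∧ Passes f p) ∧
        curves d Q = curves d P ⊔ Submodule.span ℝ {f} ∧
        2 * (Q.card + finrank ℝ (curves d Q)) = (d + 1) * (d + 2)) ∧
    ∀ (d : ℕ) (P : Finset (ℙ ℝ (Fin 3 → ℝ))), curves d P = ⊥ →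
      ∃ (f : MvPolynomial (Fin 3) ℝ) (Q : Finset (ℙ ℝ (Fin 3 → ℝ))),
        f.IsHomogeneous d ∧ f ≠ 0 ∧ (∀ p, p ∈ Q ↔ p ∈ P ∧ Passes f p) ∧
        curves d Q = Submodule.span ℝ {f} ∧ 2 * Q.card = d * (d + 3) := by
  refine ⟨rel, fun d P hbot => ?_⟩
  have hP : P.Nonempty := by
    by_contra h
    rw [Finset.not_nonempty_iff_eq_empty] at h
    subst h
    have h1 : (X 0 : MvPolynomial (Fin 3) ℝ) ^ d ∈ curves d ∅ := by
      refine ⟨?_, fun p hp => absurd hp (Finset.notMem_empty p)⟩
      simpa using (isHomogeneous_X ℝ (0 : Fin 3)).pow d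
    rw [hbot, Submodule.mem_bot] at h1
    exact pow_ne_zero d (X_ne_zero 0) h1
  obtain ⟨f, Q, h1, h2, h3, h4, h5⟩ := rel d P hP
  have hf0 : f ≠ 0 := fun h => h2 (by rw [h]; exact Submodule.zero_mem _)
  rw [hbot, bot_sup_eq] at h4
  refine ⟨f, Q, h1, hf0, h3, h4, ?_⟩
  rw [h4, finrank_span_singleton hf0] at h5
  nlinarith

end Pool.Agent.Results.MP_a50277_co.RelativeForm
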